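import Pool.Agent.H68.GP.Targets
import Pool.Agent.H90.AC.U

/-!
# Module GZP
-/

namespace Pool.Agent.H14.GP

open Finset Pool.Agent.H68.AC Pool.Agent.H68.GP

theorem gzp : T_GZP := by
  intro k r n' t g A G _ _ _ _ _ e f p hp hp1
  classical
  -- one choice
  have h1 : ∀ (x : Fin k → A) (b : Fin n' → G) (J : Finset (Fin k)), J.card = g + 1 →
      ∑ z : VL k r A G → Bool, wz p z * ind (∀ j ∈ J, z (pos e x j, lin f b j) = true) =
        p ^ (g + 1) := by
    intro x b J hJ
    have hc : (J.image (fun j => (pos e x j, lin f b j))).card = g + 1 := by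
      rw [card_image_of_injective, hJ]
      intro i j hij
      exact congrArg (fun v : VL k r A G => v.1.1) hij
    rw [← hc, ← Pool.Agent.H90.AC.sum_ind_true p (J.image (fun j => (pos e x j, lin f b j)))]
    refine sum_congr rfl fun z _ => ?_
    congr 2
    simp only [mem_image, forall_exists_index, and_imp, forall_apply_eq_imp_iff₂]
  have h2 : ∀ z : VL k r A G → Bool, ind (¬ GZ e f g z) ≤
      ∑ x : Fin k → A, ∑ b : Fin n' → G, ∑ J ∈ powersetCard (g + 1) (univ : Finset (Fin k)),
        ind (∀ j ∈ J, z (pos e x j, lin f b j) = true) := by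
    intro z
    by_cases h : ¬ GZ e f g z
    · rw [Pool.Agent.H90.AC.ind_true h]
      unfold GZ at h
      push Not at h
      obtain ⟨x, b, hxb⟩ := h
      obtain ⟨J, hJs, hJc⟩ := exists_subset_card_eq (Nat.succ_le_of_lt hxb)
      have hJ : ∀ j ∈ J, z (pos e x j, lin f b j) = true := fun j hj => (mem_filter.1 (hJs hj)).2
      rw [← Pool.Agent.H90.AC.ind_true hJ]
      refine le_trans ?_ (single_le_sum (f := fun x => ∑ b : Fin n' → G,
        ∑ J ∈ powersetCard (g + 1) (univ : Finset (Fin k)),
          ind (∀ j ∈ J, z (pos e x j, lin f b j) = true)) (fun _ _ => sum_nonneg fun _ _ =>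
          sum_nonneg fun _ _ => Pool.Agent.H90.AC.ind_nonneg _) (mem_univ x))
      refine le_trans ?_ (single_le_sum (f := fun b => 
        ∑ J ∈ powersetCard (g + 1) (univ : Finset (Fin k)),
          ind (∀ j ∈ J, z (pos e x j, lin f b j) = true)) (fun _ _ => 
          sum_nonneg fun _ _ => Pool.Agent.H90.AC.ind_nonneg _) (mem_univ b))
      exact single_le_sum (f := fun J : Finset (Fin k) => 
          ind (∀ j ∈ J, z (pos e x j, lin f b j) = true)) (fun _ _ => 
          Pool.Agent.H90.AC.ind_nonneg _) (mem_powersetCard.2 ⟨subset_univ _, hJc⟩)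
    · rw [Pool.Agent.H90.AC.ind_false h]
      exact sum_nonneg fun _ _ => sum_nonneg fun _ _ => sum_nonneg fun _ _ =>
        Pool.Agent.H90.AC.ind_nonneg _
  calc ∑ z : VL k r A G → Bool, wz p z * ind (¬ GZ e f g z)
      ≤ ∑ z : VL k r A G → Bool, wz p z * ∑ x : Fin k → A, ∑ b : Fin n' → G,
          ∑ J ∈ powersetCard (g + 1) (univ : Finset (Fin k)),
            ind (∀ j ∈ J, z (pos e x j, lin f b j) = true) :=
        sum_le_sum fun z _ => mul_le_mul_of_nonneg_left (h2 z) (Pool.Agent.H90.AC.wz_nonneg hp hp1 z)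
    _ = ∑ x : Fin k → A, ∑ b : Fin n' → G, ∑ J ∈ powersetCard (g + 1) (univ : Finset (Fin k)),
          ∑ z : VL k r A G → Bool, wz p z * ind (∀ j ∈ J, z (pos e x j, lin f b j) = true) := by
        simp only [mul_sum]
        rw [sum_comm]
        refine sum_congr rfl fun x _ => ?_
        rw [sum_comm]
        refine sum_congr rfl fun b _ => ?_
        rw [sum_comm]
    _ = ∑ _x : Fin k → A, ∑ _b : Fin n' → G, ∑ _J ∈ powersetCard (g + 1) (univ : Finset (Fin k)),
          p ^ (g + 1) := by
        refine sum_congr rfl fun x _ => sum_congr rfl fun b _ => sum_congr rfl fun J hJ => ?_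
        exact h1 x b J (mem_powersetCard.1 hJ).2
    _ ≤ _ := by
        simp only [sum_const, card_powersetCard, nsmul_eq_mul, card_univ, Fintype.card_pi,
          prod_const, Fintype.card_fin]
        push_cast
        have h3 : ((k.choose (g + 1) : ℕ) : ℝ) ≤ 2 ^ k := by
          exact_mod_cast Nat.choose_le_two_pow k (g + 1)
        have h4 : (0 : ℝ) ≤ p ^ (g + 1) := pow_nonneg hp _
        rw [mul_assoc, mul_assoc]
        refine mul_le_mul_of_nonneg_left ?_ (by positivity)
        refine mul_le_mul_of_nonneg_left ?_ (by positivity)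
        exact mul_le_mul_of_nonneg_right h3 h4

end Pool.Agent.H14.GP
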