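import Pool.Agent.H68.GP.Targets

/-!
# Modules SURJ and SEM
-/

namespace Pool.Agent.H14.GP

open Finset Pool.Agent.H68.AC Pool.Agent.H68.GP

theorem surj : T_SURJ := by
  intro k n' t h G _ f hUN
  classical
  intro H
  induction H using Finset.strongInduction with
  | H H ih =>
    intro hc u
    rcases H.eq_empty_or_nonempty with hE | hne
    · exact ⟨0, fun j hj => by rw [hE] at hj; exact absurd hj (notMem_empty j)⟩
    · obtain ⟨j₀, hj₀, i₀, huniq⟩ := hUN H hne hc
      obtain ⟨b, hb⟩ := ih (H.erase j₀) (erase_ssubset hj₀)
        ((card_le_card (erase_subset _ _)).trans hc) u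
      refine ⟨Function.update b (f j₀ i₀) (b (f j₀ i₀) + (u j₀ - lin f b j₀)), fun j hj => ?_⟩
      by_cases hjj : j = j₀
      · subst hjj
        have h1 : ∀ i, Function.update b (f j i₀) (b (f j i₀) + (u j - lin f b j)) (f j i) =
            b (f j i) + (if i = i₀ then u j - lin f b j else 0) := by
          intro i
          by_cases hi : f j i = f j i₀
          · have := (huniq j hj i hi).2
            subst this
            simp
          · have hne' : i ≠ i₀ := fun h' => hi (by rw [h'])
            rw [Function.update_of_ne hi, if_neg hne', add_zero]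
        unfold lin at h1 ⊢
        rw [sum_congr rfl fun i _ => h1 i, sum_add_distrib, sum_ite_eq' univ i₀, if_pos (mem_univ _)]
        abel
      · have h1 : lin f (Function.update b (f j₀ i₀) (b (f j₀ i₀) + (u j₀ - lin f b j₀))) j =
            lin f b j := by
          unfold lin
          refine sum_congr rfl fun i _ => ?_
          rw [Function.update_of_ne]
          intro h'
          exact hjj (huniq j hj i h').1
        rw [h1]
        exact hb j (mem_erase.2 ⟨hjj, hj⟩)

theorem sem : T_SEM := by
  intro k r n' t A G _ _ _ _ _ e f x z b
  constructor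
  · intro j
    unfold yL
    have h1 : (pos e x j) = pos e x (pos e x j).1 := rfl
    rw [if_pos (by exact h1)]
    simp only [decide_eq_true_eq]
    rfl
  · intro g g' u₀ hz hu x' b'
    have hlin : ∀ j, lin f (b' - b) j = lin f b' j - lin f b j := fun j => by
      unfold lin
      simp only [Pi.sub_apply, sum_sub_distrib]
    have h1 : (univ.filter (fun j => yL e x (u₀ + lin f b) z (pos e x' j, lin f b' j) = true)) ⊆
        (univ.filter (fun j => z (pos e x' j, lin f b' j) = true)) ∪
        (univ.filter (fun j => u₀ j = lin f (b' - b) j)) := by
      intro j hj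
      rw [mem_filter] at hj
      have h2 := hj.2
      unfold yL at h2
      rw [mem_union, mem_filter, mem_filter]
      by_cases hp : pos e x' j = pos e x j
      · right
        refine ⟨mem_univ _, ?_⟩
        have h3 : (pos e x' j, lin f b' j).1 = pos e x (pos e x' j, lin f b' j).1.1 := hp
        rw [if_pos h3] at h2
        have h4 : lin f b' j = u₀ j + lin f b j := of_decide_eq_true h2
        rw [hlin, h4]
        abel
      · left
        refine ⟨mem_univ _, ?_⟩
        have h3 : ¬ (pos e x' j, lin f b' j).1 = pos e x (pos e x' j, lin f b' j).1.1 := hp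
        rw [if_neg h3] at h2
        exact h2
    calc _ ≤ _ := card_le_card h1
      _ ≤ _ := card_union_le _ _
      _ ≤ g + g' := Nat.add_le_add (hz x' b') (hu (b' - b))

end Pool.Agent.H14.GP
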